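import Pool.Agent.MTL.Defs
import Pool.Agent.Common_HIT.Galois

/-! Statements of the modules of MTL (Serre: the image of the specialised representation is the whole
image for one hundred percent of the integral parameters). -/

set_option autoImplicit false

namespace Pool.Agent.MTL

open Polynomial Matrix Pool.Agent.MT100 Pool.Agent.Helper78_MT Pool.Agent.Common_HIT

universe u v

/-- HID: an admissible polynomial has an integral root only for a set of parameters of density zero -/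
def HidStmt : Prop :=
  ∀ g : ℤ[X][X], Admissible g → DensZero {n : ℕ | ∃ y : ℤ, evalEval (n : ℤ) y g = 0}

/-- DEC: every element of the Galois group of `ℚ` is induced by an element of the Galois group of
`ℚ(t)` -/
def DecStmt : Prop :=
  ∀ (n : ℕ) (π : BB →+* AlgebraicClosure ℚ), π (algebraMap ℚ[X] BB X) = n →
    ∀ τ : GQ, ∃ σ : GT, ∀ b : BB, π (σ • b) = τ (π b)

/-- the integral polynomials in `t` as elements of the algebraic closure -/
noncomputable def zt : ℤ[X] →+* Om := (algebraMap ℚ[X] Om).comp (mapRingHom (Int.castRingHom ℚ))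

/-- RES: an element integral over `ℤ[t]` which is fixed by the decomposition group has an integral
value, which is a root of the specialised equation -/
def ResStmt : Prop :=
  ∀ (n : ℕ) (π : BB →+* AlgebraicClosure ℚ), π (algebraMap ℚ[X] BB X) = n →
    ∀ x : BB, zt.IsIntegralElem (x : Om) →
    (∀ (σ : GT), (∃ τ : GQ, ∀ b : BB, π (σ • b) = τ (π b)) → σ • x = x) →
    ∃ z : ℤ, π x = z ∧ ∀ g : ℤ[X][X], g.eval₂ zt (x : Om) = 0 → evalEval (n : ℤ) z g = 0

/-- HIG: Hilbert's irreducibility theorem for finite quotients of the Galois group of `ℚ(t)` -/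
def HigStmt : Prop :=
  ∀ N : Subgroup GT, N.Normal → IsOpen (N : Set GT) → ∃ S : Set ℕ, DensZero S ∧
    ∀ n ∉ S, ∀ π : BB →+* AlgebraicClosure ℚ, π (algebraMap ℚ[X] BB X) = n →
    ∀ γ : GT, ∃ σ : GT, (∃ τ : GQ, ∀ b : BB, π (σ • b) = τ (π b)) ∧ σ⁻¹ * γ ∈ N

/-- FRA: in a compact subgroup `G` of `GL_d(ℚ_ℓ)` there is a neighbourhood `U` of one such that a closed
subgroup `H` with `G ⊆ H U` is `G` -/
def FraStmt : Prop :=
  ∀ (d : Type) [Fintype d] [DecidableEq d] (ℓ : ℕ) [Fact ℓ.Prime] (G : Subgroup (GL d ℚ_[ℓ])),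
    IsCompact (G : Set (GL d ℚ_[ℓ])) → ∃ U : Set (GL d ℚ_[ℓ]), IsOpen U ∧ 1 ∈ U ∧
    ∀ H : Subgroup (GL d ℚ_[ℓ]), IsClosed (H : Set (GL d ℚ_[ℓ])) → H ≤ G →
      (∀ g ∈ G, ∃ h ∈ H, h⁻¹ * g ∈ U) → H = G

/-- SER: for one hundred percent of the integral parameters the specialised representation has the
same image -/
def SerStmt : Prop :=
  ∀ (d : Type) [Fintype d] [DecidableEq d] (ℓ : ℕ) [Fact ℓ.Prime] (ρ : GT →* GL d ℚ_[ℓ]),
    Continuous ρ → ∃ S : Set ℕ, DensZero S ∧ ∀ n ∉ S, ∀ ρn : GQ →* GL d ℚ_[ℓ],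
      Specializes ρ n ρn → Set.range ρn = Set.range ρ

/-- IMG: the property `BigMonodromy` and the monodromy group depend only on the image -/
def ImgStmt : Prop :=
  ∀ (d : Type) [Fintype d] [DecidableEq d] (E : Matrix d d ℚ) (ℓ : ℕ) [Fact ℓ.Prime]
    (Γ Γ' : Type) [Group Γ] [Group Γ'] (ρ : Γ →* GL d ℚ_[ℓ]) (ρ' : Γ' →* GL d ℚ_[ℓ]),
    Set.range ρ' = Set.range ρ → BigMonodromy E ρ → BigMonodromy E ρ'

end Pool.Agent.MTL
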