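import Pool.Agent.MT100.DefsH

/-! Specialisation of representations of the Galois group of `ℚ(t)`. -/

set_option autoImplicit false

namespace Pool.Agent.MTL

open Polynomial

/-- an algebraic closure of `ℚ(t)` -/
abbrev Om : Type := AlgebraicClosure (RatFunc ℚ)

/-- the absolute Galois group of `ℚ(t)` -/
abbrev GT : Type := Om ≃ₐ[RatFunc ℚ] Om

/-- the absolute Galois group of `ℚ` -/
abbrev GQ : Type := AlgebraicClosure ℚ ≃ₐ[ℚ] AlgebraicClosure ℚ

/-- the elements of the algebraic closure of `ℚ(t)` which are integral over `ℚ[t]` -/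
noncomputable abbrev BB : Subalgebra ℚ[X] Om := integralClosure ℚ[X] Om

/-- The representation `ρn` of the Galois group of `ℚ` is the specialisation at `t = n` of the
representation `ρ` of the Galois group of `ℚ(t)`: there is a homomorphism `π` with `π t = n` from the
ring of the elements integral over `ℚ[t]` to the algebraic closure of `ℚ` such that `ρn τ = ρ σ` whenever
`π ∘ σ = τ ∘ π`. -/
def Specializes {G : Type*} [Group G] (ρ : GT →* G) (n : ℕ) (ρn : GQ →* G) : Prop :=
  ∃ π : BB →+* AlgebraicClosure ℚ, π (algebraMap ℚ[X] BB X) = n ∧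
    ∀ (σ : GT) (τ : GQ), (∀ b : BB, π (σ • b) = τ (π b)) → ρn τ = ρ σ

end Pool.Agent.MTL
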