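import Pool.Agent.MTL.Fin
import Pool.Agent.Helper11_MTL.Res
import Pool.Agent.Helper33_MTL.Fra
import Pool.Agent.Helper83_MTL.Dec

/-! MTL: assembly. -/

set_option autoImplicit false

namespace Pool.Agent.MTL

/-- module SER, unconditional -/
theorem serAll : SerStmt := H34.ser (H34.hig H34.hid (H11.res H83.dec)) H33.fra H83.dec

end Pool.Agent.MTL
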