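import Pool.Agent.Helper34_MTL.Ser
import Pool.Agent.Helper34_MTL.Img

/-! MTL: the consequences used in the hand-ins. -/

set_option autoImplicit false

namespace Pool.Agent.MTL

open Polynomial Matrix Pool.Agent.MT100 Pool.Agent.Helper78_MT

universe u v

/-- the connected monodromy group depends only on the image -/
theorem monodromy_of_range {d : Type*} [Fintype d] [DecidableEq d] {F Γ Γ' : Type*} [Field F]
    [Group Γ] [Group Γ'] (ρ : Γ →* GL d F) (ρ' : Γ' →* GL d F) (hr : Set.range ρ' = Set.range ρ)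
    (K : Type*) [Field K] [Algebra F K] : monodromy ρ' K ⊆ monodromy ρ K := by
  intro M hM Γ1 hΓ1
  have hrg : ρ'.range = ρ.range := SetLike.coe_injective (by simpa using hr)
  have hfi : ((Γ1.map ρ).comap ρ').FiniteIndex := by
    have := hΓ1
    rw [Subgroup.finiteIndex_iff, Subgroup.index_comap, hrg, ← Subgroup.index_comap,
      ← Subgroup.finiteIndex_iff]
    exact Subgroup.finiteIndex_of_le (Subgroup.le_comap_map ρ Γ1)
  have h1 := hM _ hfi
  refine ⟨h1.1, fun p hp => h1.2 p ?_⟩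
  rintro s ⟨γ', ⟨γ, hγ, hγ2⟩, rfl⟩
  rw [← hγ2]
  exact hp _ ⟨γ, hγ, rfl⟩

/-- For a continuous representation of the Galois group of `ℚ(t)`, for one hundred percent of the
integral parameters the specialised representation has the same image, so it is also big and has the
same connected algebraic monodromy group. -/
theorem specialise (hs : SerStmt) {d : Type} [Fintype d] [DecidableEq d] {ℓ : ℕ} [Fact ℓ.Prime]
    (ρ : GT →* GL d ℚ_[ℓ]) (hρ : Continuous ρ) :
    ∃ T : Set ℕ, DensZero T ∧ ∀ n ∉ T, ∀ ρn : GQ →* GL d ℚ_[ℓ], Specializes ρ n ρn →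
      Set.range ρn = Set.range ρ ∧
      (∀ E : Matrix d d ℚ, BigMonodromy E ρ → BigMonodromy E ρn) ∧
      ∀ (K : Type u) [Field K] [Algebra ℚ_[ℓ] K], monodromy ρn K = monodromy ρ K := by
  obtain ⟨T, hT, h⟩ := hs d ℓ ρ hρ
  refine ⟨T, hT, fun n hn ρn hsp => ?_⟩
  have hr := h n hn ρn hsp
  exact ⟨hr, fun E hE => H34.img d E ℓ GT GQ ρ ρn hr hE, fun K _ _ =>
    Set.Subset.antisymm (monodromy_of_range ρ ρn hr K) (monodromy_of_range ρn ρ hr.symm K)⟩

/-- From the statement for single fibres to the statement for families of representations. -/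
theorem upgrade (hs : SerStmt) {d : Type} [Fintype d] [DecidableEq d] (w : ℕ)
    (hyp : ℕ → Matrix d d ℚ → (ℕ → Submodule ℂ (d → ℂ)) → Prop)
    (G : Matrix d d ℚ → (K : Type u) → [Field K] → [CharZero K] → Set (Matrix d d K)) (S : Set ℕ)
    (h : ∀ n ∉ S, ∀ (E : Matrix d d ℚ) (V : ℕ → Submodule ℂ (d → ℂ)), hyp n E V →
      (∀ (K : Type u) [Field K] [CharZero K], mtGroup w V K = G E K) ∧
      ∀ (ℓ : ℕ) [Fact ℓ.Prime] (Γ : Type) [Group Γ] (ρ : Γ →* GL d ℚ_[ℓ]), BigMonodromy E ρ →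
        ∀ (K : Type u) [Field K] [CharZero K] [Algebra ℚ_[ℓ] K], monodromy ρ K = mtGroup w V K) :
    (∀ n ∉ S, ∀ (E : Matrix d d ℚ) (V : ℕ → Submodule ℂ (d → ℂ)), hyp n E V →
      ∀ (K : Type u) [Field K] [CharZero K], mtGroup w V K = G E K) ∧
    ∀ (ℓ : ℕ) [Fact ℓ.Prime] (ρ : GT →* GL d ℚ_[ℓ]), Continuous ρ →
      ∃ T : Set ℕ, DensZero T ∧ ∀ n : ℕ, n ∉ S → n ∉ T →
        ∀ (E : Matrix d d ℚ) (V : ℕ → Submodule ℂ (d → ℂ)), BigMonodromy E ρ → hyp n E V →
        ∀ ρn : GQ →* GL d ℚ_[ℓ], Specializes ρ n ρn →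
          ∀ (K : Type u) [Field K] [CharZero K] [Algebra ℚ_[ℓ] K],
            monodromy ρn K = mtGroup w V K := by
  refine ⟨fun n hn E V hV => (h n hn E V hV).1, fun ℓ _ ρ hρ => ?_⟩
  obtain ⟨T, hT, h2⟩ := specialise.{u} hs ρ hρ
  refine ⟨T, hT, fun n hS hnT E V hE hV ρn hsp K _ _ _ => ?_⟩
  exact (h n hS E V hV).2 ℓ GQ ρn ((h2 n hnT ρn hsp).2.1 E hE) K

end Pool.Agent.MTL
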